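import Pool.Agent.Helper11.Gap.Polycyclic

set_option autoImplicit false

/-!
# (Finitely generated nilpotent)-by-(finitely generated nilpotent)-by-abelian groups are polycyclic

`lcs_gen` and `hasChain_top` are copied from `Pool/Agent/Helper36/Kos/G5.lean` (helper36).
-/

namespace Pool.Agent.Helper11.RO

open Pool.Agent.Helper11.Gap
open scoped commutatorElement

/-- The lower central factors of a finitely generated group are finitely generated. -/
theorem lcs_gen {G : Type*} [Group G] (hG : Group.FG G) (i : ℕ) : ∃ X : Finset G,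
    (∀ x ∈ X, x ∈ (⊤ : Subgroup G).lowerCentralSeries i) ∧
    (⊤ : Subgroup G).lowerCentralSeries i ≤
      Subgroup.closure (X : Set G) ⊔ (⊤ : Subgroup G).lowerCentralSeries (i + 1) := by
  classical
  obtain ⟨S, hS⟩ := Group.fg_def.1 hG
  induction i with
  | zero =>
    refine ⟨S, fun x _ => Subgroup.mem_top x, ?_⟩
    rw [hS]
    simp
  | succ i ih =>
    obtain ⟨X, hX, hgen⟩ := ih
    set Γ1 := (⊤ : Subgroup G).lowerCentralSeries (i + 1) with hΓ1
    set Γ2 := (⊤ : Subgroup G).lowerCentralSeries (i + 1 + 1) with hΓ2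
    have hΓ2' : Γ2 = ⁅Γ1, ⊤⁆ := rfl
    have hΓ1' : Γ1 = ⁅(⊤ : Subgroup G).lowerCentralSeries i, ⊤⁆ := rfl
    have h21 : Γ2 ≤ Γ1 := (⊤ : Subgroup G).lowerCentralSeries_antitone (Nat.le_succ _)
    let X' : Finset G := (X ×ˢ S).image fun p => ⁅p.1, p.2⁆
    have hX' : ∀ x ∈ X', x ∈ Γ1 := by
      intro x hx
      obtain ⟨⟨a, s⟩, hp, rfl⟩ := Finset.mem_image.1 hx
      exact Subgroup.commutator_mem_commutator (hX a (Finset.mem_product.1 hp).1)
        (Subgroup.mem_top s)
    refine ⟨X', hX', ?_⟩
    set T := Subgroup.closure (X' : Set G) ⊔ Γ2 with hT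
    have hT1 : T ≤ Γ1 := sup_le ((Subgroup.closure_le _).2 hX') h21
    have hTn : T.Normal := by
      constructor
      intro t ht g
      have e : g * t * g⁻¹ = ⁅t, g⁆⁻¹ * t := by
        rw [commutatorElement_def]; group
      rw [e]
      refine T.mul_mem (T.inv_mem (le_sup_right (a := Subgroup.closure (X' : Set G)) ?_)) ht
      exact Subgroup.commutator_mem_commutator (hT1 ht) (Subgroup.mem_top g)
    let π := QuotientGroup.mk' T
    have hker : ∀ x, π x = 1 ↔ x ∈ T := fun x => by
      rw [← MonoidHom.mem_ker, QuotientGroup.ker_mk']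
    have hcomm : ∀ x g : G, ⁅x, g⁆ ∈ T → π x * π g = π g * π x := by
      intro x g hxg
      have := (hker _).2 hxg
      rw [map_commutatorElement, commutatorElement_eq_one_iff_mul_comm] at this
      exact this
    have hcenter : ∀ x : G, (∀ s ∈ S, ⁅x, s⁆ ∈ T) → π x ∈ Subgroup.center (G ⧸ T) := by
      intro x hx
      rw [Subgroup.mem_center_iff]
      intro q
      obtain ⟨g, rfl⟩ := QuotientGroup.mk'_surjective T q
      have hle : (⊤ : Subgroup G) ≤ (Subgroup.centralizer {π x}).comap π := by
        rw [← hS, Subgroup.closure_le]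
        intro s hs
        simp only [SetLike.mem_coe, Subgroup.mem_comap, Subgroup.mem_centralizer_singleton_iff]
        exact (hcomm x s (hx s hs)).symm
      have := hle (Subgroup.mem_top g)
      simp only [Subgroup.mem_comap, Subgroup.mem_centralizer_singleton_iff] at this
      exact this
    have hall : (⊤ : Subgroup G).lowerCentralSeries i ≤ (Subgroup.center (G ⧸ T)).comap π := by
      refine hgen.trans (sup_le ((Subgroup.closure_le _).2 ?_) ?_)
      · intro x hx
        refine hcenter x fun s hs => ?_
        refine le_sup_left (b := Γ2) (Subgroup.subset_closure ?_)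
        exact Finset.mem_coe.2 (Finset.mem_image.2 ⟨(x, s), Finset.mem_product.2 ⟨hx, hs⟩, rfl⟩)
      · intro x hx
        refine hcenter x fun s _ => ?_
        exact le_sup_right (a := Subgroup.closure (X' : Set G))
          (Subgroup.commutator_mem_commutator hx (Subgroup.mem_top s))
    rw [hΓ1', Subgroup.commutator_le]
    intro x hx g _
    rw [← hker, map_commutatorElement, commutatorElement_eq_one_iff_mul_comm]
    exact ((Subgroup.mem_center_iff.1 (hall hx)) (π g)).symm

theorem hasChain_top {G : Type*} [Group G] (hG : Group.FG G) {c : ℕ}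
    (hc : (⊤ : Subgroup G).lowerCentralSeries c = ⊥) : HasChain (⊤ : Subgroup G) := by
  classical
  have key : ∀ j ≤ c, ((⊤ : Subgroup G).lowerCentralSeries (c - j)).FG ∧
      HasChain ((⊤ : Subgroup G).lowerCentralSeries (c - j)) := by
    intro j
    induction j with
    | zero =>
      intro _
      rw [Nat.sub_zero, hc]
      exact ⟨⟨∅, by simp⟩, hasChain_bot⟩
    | succ j ih =>
      intro hj
      obtain ⟨⟨Y, hY⟩, h2⟩ := ih (Nat.le_of_succ_le hj)
      have e : c - j = (c - (j + 1)) + 1 := by omega
      rw [e] at hY h2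
      obtain ⟨X, hX, hgen⟩ := lcs_gen hG (c - (j + 1))
      have hanti := (⊤ : Subgroup G).lowerCentralSeries_antitone (Nat.le_succ (c - (j + 1)))
      have hFG : ((⊤ : Subgroup G).lowerCentralSeries (c - (j + 1))).FG := by
        refine ⟨X ∪ Y, ?_⟩
        rw [Finset.coe_union, Subgroup.closure_union, hY]
        exact le_antisymm (sup_le ((Subgroup.closure_le _).2 hX) hanti) hgen
      exact ⟨hFG, h2.extend hanti hFG (Subgroup.commutator_mono le_rfl le_top)⟩
  have := (key c le_rfl).2
  simpa using this

/-- Chains go over to images. -/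
theorem hasChain_map {G : Type*} {G' : Type*} [Group G] [Group G'] (f : G →* G')
    {K : Subgroup G} (h : HasChain K) : HasChain (K.map f) := by
  obtain ⟨n, H, h0, hn, hs⟩ := h
  refine ⟨n, fun i => (H i).map f, by simp [h0], by simp [hn], fun i hi => ?_⟩
  obtain ⟨g, h1, h2⟩ := hs i hi
  refine ⟨f g, fun x => ⟨?_, ?_⟩, ?_⟩
  · rintro ⟨y, hy, rfl⟩
    exact ⟨g * y * g⁻¹, (h1 y).1 hy, by simp⟩
  · rintro ⟨z, hz, hzx⟩
    refine ⟨g⁻¹ * z * g, (h1 _).2 ?_, ?_⟩
    · have e : g * (g⁻¹ * z * g) * g⁻¹ = z := by group
      rw [e]; exact hz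
    · rw [map_mul, map_mul, hzx, map_inv]; group
  · change (H (i + 1)).map f = (H i).map f ⊔ _
    rw [h2, Subgroup.map_sup, MonoidHom.map_zpowers]

/-- Chains go over to preimages if the kernel has a chain. -/
theorem hasChain_comap {G : Type*} {G' : Type*} [Group G] [Group G'] (f : G →* G')
    (hf : Function.Surjective f) (hk : HasChain f.ker) {K : Subgroup G'} (h : HasChain K) :
    HasChain (K.comap f) := by
  obtain ⟨n, H, h0, hn, hs⟩ := h
  have key : ∀ i ≤ n, HasChain ((H i).comap f) := by
    intro i
    induction i with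
    | zero => intro _; rw [h0]; exact hk
    | succ i ih =>
      intro hi
      obtain ⟨g, h1, h2⟩ := hs i (Nat.lt_of_succ_le hi)
      obtain ⟨g, rfl⟩ := hf g
      have h3 := (ih (Nat.le_of_succ_le hi)).adjoin (g := g) (fun x => by
        simp only [Subgroup.mem_comap, map_mul, map_inv]
        exact h1 (f x))
      have e : (H (i + 1)).comap f = (H i).comap f ⊔ Subgroup.zpowers g := by
        have hker : f.ker ≤ (H i).comap f ⊔ Subgroup.zpowers g :=
          le_trans (Subgroup.comap_mono (f := f) (bot_le : (⊥ : Subgroup G') ≤ H i)) le_sup_left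
        rw [h2, ← Subgroup.comap_map_eq_self hker, Subgroup.map_sup,
          Subgroup.map_comap_eq_self_of_surjective hf, MonoidHom.map_zpowers]
      rw [e]
      exact h3
  rw [← hn]
  exact key n le_rfl

/-- A finitely generated nilpotent subgroup is the end of a chain. -/
theorem hasChain_of_nilpotent {Q : Type*} [Group Q] (A : Subgroup Q)
    (h1 : Group.IsNilpotent A) (h3 : A.FG) : HasChain A := by
  have hG : Group.FG A := (Group.fg_iff_subgroup_fg A).2 h3
  obtain ⟨c, hc⟩ := Subgroup.nilpotent_iff_lowerCentralSeries.1 h1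
  have := hasChain_map A.subtype (hasChain_top hG hc)
  rwa [← MonoidHom.range_eq_map, Subgroup.range_subtype] at this

/-- A finitely generated group with a finitely generated nilpotent normal subgroup `A`, such that
the derived subgroup of the quotient is finitely generated and nilpotent, is polycyclic. -/
theorem PC {Q : Type*} [Group Q] [Group.FG Q] (A : Subgroup Q) [A.Normal]
    (h1 : Group.IsNilpotent A) (h2 : Group.IsNilpotent (commutator (Q ⧸ A))) (h3 : A.FG)
    (h4 : (commutator (Q ⧸ A)).FG) : IsPolycyclic Q := by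
  have c1 : HasChain A := hasChain_of_nilpotent A h1 h3
  have c2 : HasChain (commutator (Q ⧸ A)) := hasChain_of_nilpotent _ h2 h4
  have c3 : HasChain (⊤ : Subgroup (Q ⧸ A)) := by
    have : Group.FG (Q ⧸ A) := inferInstance
    exact c2.extend le_top (Group.fg_def.1 this) le_rfl
  have c4 := hasChain_comap (QuotientGroup.mk' A) (QuotientGroup.mk'_surjective A)
    (by rw [QuotientGroup.ker_mk']; exact c1) c3
  rwa [Subgroup.comap_top] at c4

end Pool.Agent.Helper11.RO
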