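import Mathlib

set_option autoImplicit false

/-!
# P. Hall's nilpotency criterion, virtual form

If `H'` is nilpotent and `H / H''` is virtually nilpotent, then `H` is virtually nilpotent.
-/

namespace Pool.Agent.Helper11.RO

open scoped commutatorElement

section

variable {G : Type*} [Group G]

theorem map_le_bot_iff (T : Subgroup G) [T.Normal] (X : Subgroup G) :
    X.map (QuotientGroup.mk' T) = ⊥ ↔ X ≤ T := by
  rw [Subgroup.map_eq_bot_iff, QuotientGroup.ker_mk']

/-- The commutator of a supremum. -/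
theorem comm_sup_le {Y₁ Y₂ K T : Subgroup G} [T.Normal] (h1 : ⁅Y₁, K⁆ ≤ T) (h2 : ⁅Y₂, K⁆ ≤ T) :
    ⁅Y₁ ⊔ Y₂, K⁆ ≤ T := by
  rw [← map_le_bot_iff, Subgroup.map_commutator, Subgroup.commutator_eq_bot_iff_le_centralizer]
    at h1 h2 ⊢
  rw [Subgroup.map_sup]
  exact sup_le h1 h2

/-- The three subgroups lemma modulo a normal subgroup. -/
theorem three_le {X Y Z T : Subgroup G} [T.Normal] (h1 : ⁅⁅Y, Z⁆, X⁆ ≤ T)
    (h2 : ⁅⁅Z, X⁆, Y⁆ ≤ T) : ⁅⁅X, Y⁆, Z⁆ ≤ T := by
  rw [← map_le_bot_iff, Subgroup.map_commutator, Subgroup.map_commutator] at h1 h2 ⊢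
  exact Subgroup.commutator_commutator_eq_bot_of_rotate h1 h2

/-- The iterated commutator `[X, K, …, K]`. -/
def ad (K X : Subgroup G) : ℕ → Subgroup G
  | 0 => X
  | n + 1 => ⁅ad K X n, K⁆

theorem ad_mono (K : Subgroup G) {X Y : Subgroup G} (h : X ≤ Y) (n : ℕ) : ad K X n ≤ ad K Y n := by
  induction n with
  | zero => exact h
  | succ n ih => exact Subgroup.commutator_mono ih le_rfl

theorem ad_normal (K X : Subgroup G) [hK : K.Normal] [hX : X.Normal] (n : ℕ) :
    (ad K X n).Normal := by
  induction n with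
  | zero => exact hX
  | succ n ih => exact Subgroup.commutator_normal _ _

theorem ad_succ_le (K X : Subgroup G) [hK : K.Normal] [hX : X.Normal] (n : ℕ) :
    ad K X (n + 1) ≤ ad K X n := by
  have := ad_normal K X n
  exact Subgroup.commutator_le_left _ _

theorem ad_antitone (K X : Subgroup G) [hK : K.Normal] [hX : X.Normal] :
    Antitone (ad K X) := antitone_nat_of_succ_le (ad_succ_le K X)

theorem ad_add (K X : Subgroup G) (m n : ℕ) : ad K X (m + n) = ad K (ad K X m) n := by
  induction n with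
  | zero => rfl
  | succ n ih =>
    change ⁅ad K X (m + n), K⁆ = ⁅ad K (ad K X m) n, K⁆
    rw [ih]

theorem ad_sup_le (K Y₁ Y₂ : Subgroup G) [hK : K.Normal] [h1 : Y₁.Normal] [h2 : Y₂.Normal]
    (n : ℕ) : ad K (Y₁ ⊔ Y₂) n ≤ ad K Y₁ n ⊔ ad K Y₂ n := by
  induction n with
  | zero => exact le_rfl
  | succ n ih =>
    have i1 := ad_normal K Y₁ (n + 1)
    have i2 := ad_normal K Y₂ (n + 1)
    have i3 : (ad K Y₁ (n + 1) ⊔ ad K Y₂ (n + 1)).Normal := inferInstance
    exact (Subgroup.commutator_mono ih le_rfl).trans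
      (comm_sup_le (le_sup_left (a := ad K Y₁ (n + 1))) (le_sup_right (a := ad K Y₁ (n + 1))))

theorem lcs_normal (D : Subgroup G) [hD : D.Normal] (i : ℕ) :
    (D.lowerCentralSeries i).Normal := by
  induction i with
  | zero => exact hD
  | succ i ih => exact Subgroup.commutator_normal _ _

/-- `[γ_i, γ_2] ≤ γ_(i+2)`. -/
theorem lcs_two (D : Subgroup G) [hD : D.Normal] (i : ℕ) :
    ⁅D.lowerCentralSeries i, D.lowerCentralSeries 1⁆ ≤ D.lowerCentralSeries (i + 2) := by
  have hn := lcs_normal D (i + 2)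
  have h1 : ⁅⁅D.lowerCentralSeries i, D⁆, D⁆ ≤ D.lowerCentralSeries (i + 2) := le_rfl
  have h2 : ⁅⁅D, D.lowerCentralSeries i⁆, D⁆ ≤ D.lowerCentralSeries (i + 2) := by
    rw [Subgroup.commutator_comm D]; exact h1
  rw [Subgroup.commutator_comm]
  exact three_le h2 h1

/-- The step of Hall's theorem. -/
theorem hall_step (D K : Subgroup G) [hD : D.Normal] [hK : K.Normal] (i a b : ℕ)
    (ha : ad K (D.lowerCentralSeries i) a ≤ D.lowerCentralSeries (i + 1))
    (hb : ad K D b ≤ D.lowerCentralSeries 1) :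
    ad K (D.lowerCentralSeries (i + 1)) (a + b) ≤ D.lowerCentralSeries (i + 2) := by
  have hX := lcs_normal D i
  have hT := lcs_normal D (i + 2)
  set X := D.lowerCentralSeries i with hXdef
  have key : ∀ n s t : ℕ, a + b ≤ s + t + n →
      ad K ⁅ad K X s, ad K D t⁆ n ≤ D.lowerCentralSeries (i + 2) := by
    intro n
    induction n with
    | zero =>
      intro s t h
      rcases Nat.lt_or_ge s a with h1 | h1
      · have h2 : b ≤ t := by omega
        refine le_trans (Subgroup.commutator_mono ?_ ((ad_antitone K D h2).trans hb))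
          (lcs_two D i)
        exact (ad_antitone K X (Nat.zero_le s)).trans le_rfl
      · exact Subgroup.commutator_mono ((ad_antitone K X h1).trans ha)
          ((ad_antitone K D (Nat.zero_le t)).trans le_rfl)
    | succ n ih =>
      intro s t h
      have n1 := ad_normal K X s
      have n2 := ad_normal K D t
      have n3 := ad_normal K X (s + 1)
      have n4 := ad_normal K D (t + 1)
      have h1 := ih (s + 1) t (by omega)
      have h2 := ih s (t + 1) (by omega)
      have e : ad K ⁅ad K X s, ad K D t⁆ (n + 1) = ad K ⁅⁅ad K X s, ad K D t⁆, K⁆ n := by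
        rw [add_comm n 1, ad_add]
        rfl
      rw [e]
      have h3 : ⁅⁅ad K X s, ad K D t⁆, K⁆ ≤
          ⁅ad K X (s + 1), ad K D t⁆ ⊔ ⁅ad K X s, ad K D (t + 1)⁆ := by
        have n5 : (⁅ad K X (s + 1), ad K D t⁆ ⊔ ⁅ad K X s, ad K D (t + 1)⁆).Normal :=
          inferInstance
        refine three_le ?_ ?_
        · refine le_trans ?_ (le_sup_right (a := ⁅ad K X (s + 1), ad K D t⁆))
          rw [Subgroup.commutator_comm]
          exact le_rfl
        · refine le_trans ?_ (le_sup_left (b := ⁅ad K X s, ad K D (t + 1)⁆))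
          rw [Subgroup.commutator_comm K]
          exact le_rfl
      exact (ad_mono K h3 n).trans ((ad_sup_le K _ _ n).trans (sup_le h1 h2))
  exact key (a + b) 0 0 (by omega)

/-- Hall's theorem: if `[D, K, …, K] ≤ [D, D]` and `D` is nilpotent, then `[D, K, …, K] = 1`. -/
theorem hall_ad (D K : Subgroup G) [hD : D.Normal] [hK : K.Normal] (b : ℕ)
    (hb : ad K D b ≤ D.lowerCentralSeries 1) (c : ℕ) (hc : D.lowerCentralSeries c = ⊥) :
    ∃ N, ad K D N = ⊥ := by
  have h1 : ∀ i, ∃ a, ad K (D.lowerCentralSeries i) a ≤ D.lowerCentralSeries (i + 1) := by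
    intro i
    induction i with
    | zero => exact ⟨b, hb⟩
    | succ i ih =>
      obtain ⟨a, ha⟩ := ih
      exact ⟨a + b, hall_step D K i a b ha hb⟩
  have h2 : ∀ i, ∃ N, ad K D N ≤ D.lowerCentralSeries i := by
    intro i
    induction i with
    | zero => exact ⟨0, le_rfl⟩
    | succ i ih =>
      obtain ⟨N, hN⟩ := ih
      obtain ⟨a, ha⟩ := h1 i
      refine ⟨N + a, ?_⟩
      rw [ad_add]
      exact (ad_mono K hN a).trans ha
  obtain ⟨N, hN⟩ := h2 c
  rw [hc] at hN
  exact ⟨N, le_bot_iff.1 hN⟩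

/-- Hall's theorem for a normal subgroup `K` of `G` with `[K, …, K] ≤ G''`. -/
theorem hall_normal (K : Subgroup G) [hK : K.Normal] (h1 : Group.IsNilpotent (commutator G))
    (c : ℕ) (hc : K.lowerCentralSeries c ≤ derivedSeries G 2) : Group.IsNilpotent K := by
  obtain ⟨d, hd⟩ := (Subgroup.isNilpotent_iff_lowerCentralSeries (commutator G)).1 h1
  have e2 : derivedSeries G 2 = (commutator G).lowerCentralSeries 1 := by
    rw [derivedSeries_succ, derivedSeries_one]
    rfl
  rw [e2] at hc
  -- `[D, K] ≤ K`, so `[D, K, …, K] ≤ [K, …, K]`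
  have h2 : ∀ n, ad K (commutator G) (n + 1) ≤ K.lowerCentralSeries n := by
    intro n
    induction n with
    | zero => exact Subgroup.commutator_le_right _ _
    | succ n ih => exact Subgroup.commutator_mono ih le_rfl
  obtain ⟨N, hN⟩ := hall_ad (commutator G) K (c + 1) ((h2 c).trans hc) d hd
  have h3 : ∀ n, K.lowerCentralSeries (n + 1) ≤ ad K (commutator G) n := by
    intro n
    induction n with
    | zero => exact Subgroup.commutator_mono le_top le_top
    | succ n ih => exact Subgroup.commutator_mono ih le_rfl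
  have h4 := h3 N
  rw [hN] at h4
  exact Subgroup.isNilpotent_of_lowerCentralSeries_eq_bot (le_bot_iff.1 h4)

end

/-- If `H'` is nilpotent and `H / H''` is virtually nilpotent, then `H` is virtually nilpotent. -/
theorem hall {H : Type*} [Group H] (h1 : Group.IsNilpotent (commutator H))
    (h2 : ∃ K : Subgroup (H ⧸ derivedSeries H 2), K.FiniteIndex ∧ Group.IsNilpotent K) :
    ∃ K : Subgroup H, K.FiniteIndex ∧ Group.IsNilpotent K := by
  obtain ⟨K, hK1, hK2⟩ := h2
  obtain ⟨c, hc⟩ := (Subgroup.isNilpotent_iff_lowerCentralSeries K).1 hK2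
  have hcore : K.normalCore.lowerCentralSeries c = ⊥ :=
    le_bot_iff.1 ((Subgroup.lowerCentralSeries_mono c K.normalCore_le).trans hc.le)
  refine ⟨K.normalCore.comap (QuotientGroup.mk' (derivedSeries H 2)), ?_, ?_⟩
  · have i1 : K.normalCore.FiniteIndex := inferInstance
    refine ⟨?_⟩
    rw [Subgroup.index_comap_of_surjective _ (QuotientGroup.mk'_surjective _)]
    exact i1.index_ne_zero
  · refine hall_normal _ h1 c ?_
    rw [← map_le_bot_iff, Subgroup.map_lowerCentralSeries,
      Subgroup.map_comap_eq_self_of_surjective (QuotientGroup.mk'_surjective _)]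
    exact hcore

end Pool.Agent.Helper11.RO
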